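import Pool.Agent.Q210.IK.Main

set_option autoImplicit false

open Filter Topology Q210.IK

namespace Pool.Agent.Results.MP_da7216_co.FormulaFails

/-- The Laplacian formula for the IKTU curvature fails: there is a connected weighted hypergraph
with five vertices and six hyperedges (all with two or three vertices) and there are two
vertices `x ≠ y` at distance one such that the quotients `(1 - K_l(x, y) / d(x, y)) / l`, whose
limit for `l ↓ 0` is the curvature `κ(x, y)`, are at most `386/363 < 1.064` for all small `l > 0`,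
while `𝒞(x, y) ≥ 1.07`. -/
theorem result : ∃ (H : WHyp (Fin 5)) (x y : Fin 5), H.graph.Connected ∧ x ≠ y ∧
    H.edges.card = 6 ∧ (∀ e ∈ H.edges, 2 ≤ e.card ∧ e.card ≤ 3) ∧
    (∀ᶠ l in 𝓝[>] (0 : ℝ), H.quot x y l ≤ 386 / 363) ∧ 107 / 100 ≤ H.C x y ∧
    ∀ k : ℝ, Tendsto (H.quot x y) (𝓝[>] 0) (𝓝 k) → k < H.C x y := by
  obtain ⟨h1, h2, h3, h4⟩ := main
  exact ⟨ex, 0, 2, h1, by decide, by decide, by decide, h2, h3, h4⟩

end Pool.Agent.Results.MP_da7216_co.FormulaFails
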